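import Pool.Agent.Y920.QB.Lin

set_option autoImplicit false

/-!
# Ample subspaces

Job 5383 (poster helper920): `t_AMP`.
-/

namespace Pool.Agent.Y43.QB

open Module Pool.Agent.Y920.QB

section

variable {V K : Type} [AddCommGroup V] [Module (ZMod 2) V] [AddCommGroup K] [Module (ZMod 2) K]
  {U : Submodule (ZMod 2) V}

theorem UE_mono (β : U →ₗ[ZMod 2] V →ₗ[ZMod 2] K) {E E' : Submodule (ZMod 2) K} (h : E ≤ E') :
    UE β E ≤ UE β E' := fun _ hu x => h (hu x)

theorem UE_inf (β : U →ₗ[ZMod 2] V →ₗ[ZMod 2] K) (E E' : Submodule (ZMod 2) K) :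
    UE β E ⊓ UE β E' = UE β (E ⊓ E') := by
  ext u
  constructor
  · rintro ⟨h1, h2⟩ x
    exact ⟨h1 x, h2 x⟩
  · intro h
    exact ⟨fun x => (h x).1, fun x => (h x).2⟩

variable [Finite V]

theorem ee_mono (β : U →ₗ[ZMod 2] V →ₗ[ZMod 2] K) {E E' : Submodule (ZMod 2) K} (h : E ≤ E') :
    ee β E ≤ ee β E' := Submodule.finrank_mono (UE_mono β h)

theorem amp_aux (β : U →ₗ[ZMod 2] V →ₗ[ZMod 2] K) (t : ℕ) {A A' E' : Submodule (ZMod 2) K}
    (hA : Amp β t A) (hE' : E' ≤ A ⊔ A') (h : ¬ A ≤ E') : ee β E' + t ≤ ee β (A ⊔ A') := by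
  have h1 : A ⊓ E' < A := lt_of_le_of_ne inf_le_left (fun h2 => h (inf_eq_left.1 h2))
  have h2 := hA _ h1
  have h3 := Submodule.finrank_sup_add_finrank_inf_eq (UE β A) (UE β E')
  rw [UE_inf] at h3
  have h4 : UE β A ⊔ UE β E' ≤ UE β (A ⊔ A') :=
    sup_le (UE_mono β le_sup_left) (UE_mono β hE')
  have h5 := Submodule.finrank_mono h4
  unfold ee at h2 ⊢
  omega

theorem amp_sup (β : U →ₗ[ZMod 2] V →ₗ[ZMod 2] K) (t : ℕ) {A A' : Submodule (ZMod 2) K}
    (hA : Amp β t A) (hA' : Amp β t A') : Amp β t (A ⊔ A') := by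
  intro E' hE'
  by_cases h : A ≤ E'
  · have h' : ¬ A' ≤ E' := fun h' => absurd hE' (not_lt_of_ge (sup_le h h'))
    rw [sup_comm]
    exact amp_aux β t hA' (by rw [sup_comm]; exact hE'.le) h'
  · exact amp_aux β t hA hE'.le h

omit [Finite V] in
theorem exists_amp [Finite K] (β : U →ₗ[ZMod 2] V →ₗ[ZMod 2] K) (t : ℕ) :
    ∀ (n : ℕ) (E : Submodule (ZMod 2) K), finrank (ZMod 2) E = n →
      ∃ A : Submodule (ZMod 2) K, A ≤ E ∧ Amp β t A ∧
        ee β E + t * finrank (ZMod 2) A ≤ ee β A + t * finrank (ZMod 2) E := by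
  intro n
  induction n using Nat.strong_induction_on with
  | _ n ih =>
    intro E hE
    by_cases hA : Amp β t E
    · exact ⟨E, le_rfl, hA, le_rfl⟩
    · unfold Amp at hA
      push Not at hA
      obtain ⟨E', h1, h2⟩ := hA
      have h3 := Submodule.finrank_lt_finrank_of_lt h1
      obtain ⟨A, h4, h5, h6⟩ := ih _ (by omega) E' rfl
      refine ⟨A, h4.trans h1.le, h5, ?_⟩
      have h7 : t * (finrank (ZMod 2) E' + 1) ≤ t * finrank (ZMod 2) E :=
        Nat.mul_le_mul_left t h3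
      rw [mul_add, mul_one] at h7
      omega

theorem SS_amp [Finite K] (β : U →ₗ[ZMod 2] V →ₗ[ZMod 2] K) (t : ℕ)
    (E : Submodule (ZMod 2) K) : Amp β t (SS β t E) := by
  classical
  have hfin : Finite (Submodule (ZMod 2) K) :=
    Finite.of_injective (fun S : Submodule (ZMod 2) K => (S : Set K)) SetLike.coe_injective
  have hS : {A : Submodule (ZMod 2) K | A ≤ E ∧ Amp β t A}.Finite := Set.toFinite _
  have h1 : SS β t E = hS.toFinset.sup id := by
    rw [Finset.sup_id_eq_sSup, Set.Finite.coe_toFinset]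
    rfl
  rw [h1]
  refine Finset.sup_induction ?_ (fun A hA A' hA' => amp_sup β t hA hA') ?_
  · intro E' hE'
    exact absurd hE' not_lt_bot
  · intro A hA
    rw [Set.Finite.mem_toFinset] at hA
    exact hA.2

end

theorem t_AMP : Pool.Agent.Y920.QB.S_AMP := by
  intro V K _ _ _ _ _ _ U β t
  refine ⟨fun A A' hA hA' => amp_sup β t hA hA', fun E => ⟨SS_amp β t E, ?_, ?_⟩⟩
  · exact sSup_le (fun A hA => hA.1)
  · obtain ⟨A, h1, h2, h3⟩ := exists_amp β t _ E rfl
    have h4 : A ≤ SS β t E := le_sSup ⟨h1, h2⟩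
    have h5 := ee_mono β h4
    have h6 : t * finrank (ZMod 2) E ≤ t * finrank (ZMod 2) K :=
      Nat.mul_le_mul_left t (Submodule.finrank_le E)
    omega

end Pool.Agent.Y43.QB
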